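import Pool.Agent.Q293.HF.Stm

/-!
# Project HF (helper293), part REL: homology equivalences and relative homology
-/

set_option autoImplicit false

namespace Pool.Agent.Q222.HF.REL

open Pool.Agent.Q293.HF Pool.Agent.Helper922.HB

variable {E : Type} [TopologicalSpace E]

/-- a chain of `B` whose image is a cycle is a cycle -/
theorem cyc_of_push (B : Set E) (n : ℕ) (y : Sing B n →₀ ℤ) (h : push (sub B) n y ∈ Cyc E n) :
    y ∈ Cyc B n := by
  cases n with
  | zero => exact Submodule.mem_top
  | succ n =>
    change bdry _ n y = 0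
    have h1 : bdry E n (push (sub B) (n + 1) y) = 0 := h
    apply mvx_inj_sub B n
    rw [map_zero, ← bdry_push, h1]

theorem rel : S_REL := by
  intro E _ B g
  constructor
  · intro hE n z hz
    change z ∈ Bdy E n ⊔ SubC B n
    have key : ∀ b ∈ Cyc E n, b ∈ Bdy E n ⊔ SubC B n := by
      intro b hb
      obtain ⟨u, -, hu⟩ := (hE n).2 b hb
      have : b = (b - push (sub B) n u) + push (sub B) n u := by abel
      rw [this]
      exact Submodule.add_mem_sup hu (mvx_support B n u)
    cases n with
    | zero => exact key z Submodule.mem_top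
    | succ n =>
      have hz' : bdry E n z ∈ SubC B n := hz
      obtain ⟨y, hy⟩ := mvx_lift B n _ hz'
      have hyb : push (sub B) n y ∈ Bdy E n := by
        rw [hy]
        exact ⟨z, rfl⟩
      obtain ⟨w, hw⟩ := (hE n).1 y (cyc_of_push B n y (Bdy_le_Cyc n hyb)) hyb
      have hc : z - push (sub B) (n + 1) w ∈ Cyc E (n + 1) := by
        change bdry E n _ = 0
        rw [map_sub, bdry_push, hw, hy, sub_self]
      have h1 := key _ hc
      have h2 : push (sub B) (n + 1) w ∈ Bdy E (n + 1) ⊔ SubC B (n + 1) :=
        Submodule.mem_sup_right (mvx_support B (n + 1) w)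
      have h3 := Submodule.add_mem _ h1 h2
      rwa [sub_add_cancel] at h3
  · intro hK n
    have hK' : ∀ n, ∀ z ∈ RCyc B n, z ∈ Bdy E n ⊔ SubC B n := hK
    constructor
    · rintro z - ⟨w, hw⟩
      have hw1 : w ∈ RCyc B (n + 1) := by
        change bdry E n w ∈ SubC B n
        rw [hw]
        exact mvx_support B n z
      obtain ⟨_, ⟨v, rfl⟩, s, hs, hvs⟩ := Submodule.mem_sup.1 (hK' (n + 1) w hw1)
      obtain ⟨u, rfl⟩ := mvx_lift B (n + 1) s hs
      refine ⟨u, mvx_inj_sub B n ?_⟩
      rw [← hw, ← hvs, map_add, bdry_bdry, zero_add, bdry_push]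
    · intro b hb
      have hb1 : b ∈ RCyc B n := by
        cases n with
        | zero => exact Submodule.mem_top
        | succ n =>
          change bdry E n b ∈ SubC B n
          have : bdry E n b = 0 := hb
          rw [this]
          exact Submodule.zero_mem _
      obtain ⟨v, hv, s, hs, hvs⟩ := Submodule.mem_sup.1 (hK' n b hb1)
      obtain ⟨u, rfl⟩ := mvx_lift B n s hs
      refine ⟨u, cyc_of_push B n u ?_, ?_⟩
      · have : push (sub B) n u = b - v := by rw [← hvs]; abel
        rw [this]
        exact Submodule.sub_mem _ hb (Bdy_le_Cyc n hv)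
      · rw [← hvs, add_sub_cancel_right]
        exact hv

end Pool.Agent.Q222.HF.REL
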